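import Pool.Agent.TH751.QP.Core

/-!
# Hereditary structural completeness of `⊢_A` and the finite criterion
-/

set_option autoImplicit false

namespace Pool.Agent.TH751.QP

open Pool.Agent.H877R3.HSC Pool.Agent.H877R3.HSC.RA

section

variable {A : Type} [HeytingAlgebra A] [Finite A]

theorem matrix_valid {X : Type} {R : RA X} (hR : Sep R (ofH A)) {Γ : Finset Fm} {β : Fm}
    (h : (matrixSystem A).der (↑Γ) β) : R.Valid Γ β := by
  refine hR.valid fun v hv => ?_
  rw [ofH_eval, ofH_top]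
  refine h v fun C hC => ?_
  have := hv C (by exact_mod_cast hC)
  rwa [ofH_eval, ofH_top] at this

theorem sep_of_hsc' (hS : (matrixSystem A).HereditarilyStructurallyComplete)
    {m l : ℕ} (B : RA (Fin m)) (C : RA (Fin l)) (hB : Sep B (ofH A)) (hC : Sep C (ofH A))
    (g : Fin l → Fin m) (gs : Function.Surjective g) (hg : IsHom C B g) : Sep B C := by
  intro x y hxy
  by_contra hno
  push Not at hno
  have hext : (sys2 B C).Extends (matrixSystem A) := by
    intro Γ β h
    obtain ⟨Δ, h1, h2, h3⟩ := (matrixSystem A).finitary Γ β h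
    refine ⟨h2.toFinset, by simpa using h1, ?_⟩
    have h4 : (matrixSystem A).der (↑h2.toFinset) β := by
      rw [Set.Finite.coe_toFinset]; exact h3
    exact ⟨matrix_valid hB h4, matrix_valid hC h4⟩
  have hgC : Good C := hC.good (good_ofH A)
  have hgB : Good B := hB.good (good_ofH A)
  have hCB : ∀ φ : Fm, C.Valid ∅ φ → B.Valid ∅ φ := by
    intro φ h v _
    choose w hw using gs
    have := h (fun i => w (v i)) (by simp)
    have h2 : B.eval v φ = g (C.eval (fun i => w (v i)) φ) := by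
      rw [hg.eval]; simp only [hw]
    rw [h2, this, hg.top]
  have hthm : ∀ φ : Fm, (sys2 B C).der ∅ φ ↔ C.Valid ∅ φ := by
    intro φ
    constructor
    · rintro ⟨Δ, h1, h2, h3⟩
      have : Δ = ∅ := by simpa using h1
      subst this
      exact h3
    · intro h
      exact ⟨∅, by simp, hCB φ h, h⟩
  have hadm : (sys2 B C).Admissible (dg B) (Fm.iff (Fm.var x) (Fm.var y)) := by
    intro σ hσ
    rw [hthm]
    intro w _
    rw [eval_subst, eval_iff]
    have hhom : IsHom B C (fun i => C.eval w (σ i)) := by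
      refine (dg_iff B hgC (fun i => C.eval w (σ i))).1 fun D hD => ?_
      rw [← eval_subst]
      exact (hthm _).1 (hσ D hD) w (by simp)
    have := hno _ hhom
    simp only [RA.eval]
    rw [this, hgC.refl]
  obtain ⟨Δ, h1, h2, _⟩ := hS _ hext _ _ hadm
  have hm : 0 < m := lt_of_le_of_lt (Nat.zero_le _) x.2
  have h3 := h2 (fun i => if h : i < m then ⟨i, h⟩ else ⟨0, hm⟩) (fun D hD => by
    refine (dg_iff B hgB _).2 ?_ D (by exact_mod_cast h1 hD)
    have : (fun i : Fin m => (if h : (i : ℕ) < m then (⟨i, h⟩ : Fin m) else ⟨0, hm⟩)) =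
        fun i => i := by
      funext i; simp
    rw [this]
    exact ⟨fun _ _ => rfl, fun _ _ => rfl, fun _ _ => rfl, rfl⟩)
  rw [eval_iff] at h3
  apply hxy
  have := hgB.eq _ _ h3
  simpa [RA.eval] using this

variable {S : DedSys} (hS : S.Extends (matrixSystem A))

include hS

theorem der_of_valid (Γ : Set Fm) (θ : Fm) (h : ∀ u : ℕ → A, θ.eval u = ⊤) : S.der Γ θ :=
  hS _ _ fun v _ => h v

theorem der_of_le (Γ : Set Fm) (a b : Fm) (h1 : S.der Γ a)
    (h : ∀ u : ℕ → A, a.eval u ≤ b.eval u) : S.der Γ b := by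
  refine S.cut Γ {a} b ?_ (hS _ _ fun v hv => ?_)
  · rintro B rfl
    exact h1
  · have := h v
    rw [hv a rfl] at this
    exact top_unique this

theorem der_of_le₂ (Γ : Set Fm) (a b c : Fm) (h1 : S.der Γ a) (h2 : S.der Γ b)
    (h : ∀ u : ℕ → A, a.eval u ⊓ b.eval u ≤ c.eval u) : S.der Γ c := by
  refine S.cut Γ {a, b} c ?_ (hS _ _ fun v hv => ?_)
  · intro B hB
    simp only [Set.mem_insert_iff, Set.mem_singleton_iff] at hB
    rcases hB with rfl | rfl
    · exact h1
    · exact h2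
  · have := h v
    rw [hv a (Or.inl rfl), hv b (Or.inr rfl), inf_top_eq] at this
    exact top_unique this

theorem der_iff_refl (Γ : Set Fm) (a : Fm) : S.der Γ (Fm.iff a a) :=
  der_of_valid hS Γ _ fun u => by simp [Fm.iff, Fm.eval]

theorem der_iff_symm (Γ : Set Fm) (a b : Fm) (h : S.der Γ (Fm.iff a b)) :
    S.der Γ (Fm.iff b a) :=
  der_of_le hS Γ _ _ h fun u => by simp only [Fm.iff, Fm.eval]; rw [inf_comm]

theorem der_iff_trans (Γ : Set Fm) (a b c : Fm) (h : S.der Γ (Fm.iff a b))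
    (h' : S.der Γ (Fm.iff b c)) : S.der Γ (Fm.iff a c) :=
  der_of_le₂ hS Γ _ _ _ h h' fun u => by
    simp only [Fm.iff, Fm.eval]
    generalize a.eval u = a, b.eval u = b, c.eval u = c
    rw [le_biimp]
    set p := (a ⇨ b) ⊓ (b ⇨ a) ⊓ ((b ⇨ c) ⊓ (c ⇨ b)) with hp
    have h1 : p ⊓ a = p ⊓ b := (le_biimp _ _ _).1 inf_le_left
    have h2 : p ⊓ b = p ⊓ c := (le_biimp _ _ _).1 inf_le_right
    exact h1.trans h2

theorem der_iff_and (Γ : Set Fm) (a a' b b' : Fm) (h : S.der Γ (Fm.iff a a'))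
    (h' : S.der Γ (Fm.iff b b')) : S.der Γ (Fm.iff (Fm.and a b) (Fm.and a' b')) :=
  der_of_le₂ hS Γ _ _ _ h h' fun u => by
    simp only [Fm.iff, Fm.eval]
    generalize a.eval u = a, b.eval u = b, a'.eval u = a', b'.eval u = b'
    rw [le_biimp]
    set p := (a ⇨ a') ⊓ (a' ⇨ a) ⊓ ((b ⇨ b') ⊓ (b' ⇨ b)) with hp
    have h1 : p ⊓ a = p ⊓ a' := (le_biimp _ _ _).1 inf_le_left
    have h2 : p ⊓ b = p ⊓ b' := (le_biimp _ _ _).1 inf_le_right
    rw [inf_inf_distrib_left, h1, h2, ← inf_inf_distrib_left]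

theorem der_iff_or (Γ : Set Fm) (a a' b b' : Fm) (h : S.der Γ (Fm.iff a a'))
    (h' : S.der Γ (Fm.iff b b')) : S.der Γ (Fm.iff (Fm.or a b) (Fm.or a' b')) :=
  der_of_le₂ hS Γ _ _ _ h h' fun u => by
    simp only [Fm.iff, Fm.eval]
    generalize a.eval u = a, b.eval u = b, a'.eval u = a', b'.eval u = b'
    rw [le_biimp]
    set p := (a ⇨ a') ⊓ (a' ⇨ a) ⊓ ((b ⇨ b') ⊓ (b' ⇨ b)) with hp
    have h1 : p ⊓ a = p ⊓ a' := (le_biimp _ _ _).1 inf_le_left
    have h2 : p ⊓ b = p ⊓ b' := (le_biimp _ _ _).1 inf_le_right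
    rw [inf_sup_left, h1, h2, ← inf_sup_left]

theorem der_iff_imp (Γ : Set Fm) (a a' b b' : Fm) (h : S.der Γ (Fm.iff a a'))
    (h' : S.der Γ (Fm.iff b b')) : S.der Γ (Fm.iff (Fm.imp a b) (Fm.imp a' b')) :=
  der_of_le₂ hS Γ _ _ _ h h' fun u => by
    simp only [Fm.iff, Fm.eval]
    generalize a.eval u = a, b.eval u = b, a'.eval u = a', b'.eval u = b'
    rw [le_biimp]
    set p := (a ⇨ a') ⊓ (a' ⇨ a) ⊓ ((b ⇨ b') ⊓ (b' ⇨ b)) with hp
    have h1 : p ⊓ a = p ⊓ a' := (le_biimp _ _ _).1 inf_le_left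
    have h2 : p ⊓ b = p ⊓ b' := (le_biimp _ _ _).1 inf_le_right
    exact inf_himp_congr h1 h2

theorem der_iff_top (Γ : Set Fm) (a : Fm) :
    S.der Γ (Fm.iff a (Fm.imp Fm.bot Fm.bot)) ↔ S.der Γ a := by
  constructor
  · intro h
    exact der_of_le hS Γ _ _ h fun u => by simp [Fm.iff, Fm.eval]
  · intro h
    exact der_of_le hS Γ _ _ h fun u => by simp [Fm.iff, Fm.eval]

/-- Lindenbaum algebras. -/
theorem LT_exists [Fintype A] (Γ : Set Fm) (τ : ℕ → Fm) (m : ℕ)
    (hτ : ∀ j, m ≤ j → τ j = Fm.bot) :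
    ∃ (l : ℕ) (R : RA (Fin l)) (cl : Fm → Fin l),
      l ≤ (Fintype.card A) ^ ((Fintype.card A) ^ m) ∧
      Function.Surjective cl ∧ IsHom fm R cl ∧
      ∀ φ ψ, cl φ = cl ψ ↔ S.der Γ ((Fm.iff φ ψ).subst τ) := by
  classical
  have hK : Fintype.card ((Fin m → A) → A) = (Fintype.card A) ^ ((Fintype.card A) ^ m) := by
    simp [Fintype.card_pi]
  rw [← hK]
  refine quot_exists (fun φ ψ => S.der Γ ((Fm.iff φ ψ).subst τ)) ⟨?_, ?_, ?_⟩ ?_ ?_ ?_
    (fun φ v => φ.eval (fun i => if h : i < m then v ⟨i, h⟩ else ⊥)) ?_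
  · intro a
    exact der_iff_refl hS Γ _
  · intro a b h
    exact der_iff_symm hS Γ _ _ h
  · intro a b c h h'
    exact der_iff_trans hS Γ _ _ _ h h'
  · intro a a' b b' h h'
    exact der_iff_and hS Γ _ _ _ _ h h'
  · intro a a' b b' h h'
    exact der_iff_or hS Γ _ _ _ _ h h'
  · intro a a' b b' h h'
    exact der_iff_imp hS Γ _ _ _ _ h h'
  · intro φ ψ h
    have h1 : ∀ u : ℕ → A,
        ((Fm.iff φ ψ).subst (fun i => if i < m then Fm.var i else Fm.bot)).eval u = ⊤ := by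
      intro u
      rw [Fm.eval_subst]
      have h2 := congrFun h (fun i => u i)
      have h3 : (fun i => (if i < m then Fm.var i else Fm.bot : Fm).eval u) =
          (fun i => if h : i < m then (fun i : Fin m => u i) ⟨i, h⟩ else ⊥) := by
        funext i
        split_ifs <;> rfl
      rw [h3]
      simp only [Fm.iff, Fm.eval]
      rw [h2]
      simp
    have h2 : S.der ∅ _ := der_of_valid hS ∅ _ h1
    have h3 := S.structural _ _ τ h2
    rw [Set.image_empty, Fm.subst_subst] at h3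
    have h4 : (fun i => (if i < m then Fm.var i else Fm.bot : Fm).subst τ) = τ := by
      funext i
      split_ifs with hi
      · rfl
      · rw [hτ i (by omega)]; rfl
    rw [h4] at h3
    exact S.mono (Set.empty_subset _) h3

/-- Lindenbaum algebras lie in `Q(A)`. -/
theorem LT_sep (Γ : Set Fm) (τ : ℕ → Fm) {l : ℕ} {R : RA (Fin l)} {cl : Fm → Fin l}
    (hs : Function.Surjective cl) (hh : IsHom fm R cl)
    (hcl : ∀ φ ψ, cl φ = cl ψ ↔ S.der Γ ((Fm.iff φ ψ).subst τ)) : Sep R (ofH A) := by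
  intro x y hxy
  by_contra hno
  push Not at hno
  choose rep hrep using hs
  have h1 : S.der (↑(dg R)) (Fm.iff (Fm.var x) (Fm.var y)) := by
    refine hS _ _ fun u hu => ?_
    have hhom : IsHom R (ofH A) (fun i => u i) := by
      refine (dg_iff R (good_ofH A) u).1 fun D hD => ?_
      rw [ofH_eval, ofH_top]
      exact hu D (by exact_mod_cast hD)
    have := hno _ hhom
    simp only [Fm.iff, Fm.eval]
    rw [this]
    simp
  have h2 := S.structural _ _ (fun i => if h : i < l then (rep ⟨i, h⟩).subst τ else Fm.bot) h1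
  have h3 : S.der Γ _ := S.cut Γ _ _ (by
    rintro _ ⟨D, hD, rfl⟩
    have hD' : D ∈ dg R := by exact_mod_cast hD
    clear hD
    revert D
    rw [forall_dg]
    refine ⟨fun i j => ?_, fun i j => ?_, fun i j => ?_, ?_⟩
    · have : S.der Γ ((Fm.iff (rep (R.inf i j)) (Fm.and (rep i) (rep j))).subst τ) := by
        rw [← hcl, hrep, show Fm.and (rep i) (rep j) = fm.inf (rep i) (rep j) from rfl, hh.inf,
          hrep, hrep]
      simpa [Fm.iff, Fm.subst] using this
    · have : S.der Γ ((Fm.iff (rep (R.sup i j)) (Fm.or (rep i) (rep j))).subst τ) := by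
        rw [← hcl, hrep, show Fm.or (rep i) (rep j) = fm.sup (rep i) (rep j) from rfl, hh.sup,
          hrep, hrep]
      simpa [Fm.iff, Fm.subst] using this
    · have : S.der Γ ((Fm.iff (rep (R.imp i j)) (Fm.imp (rep i) (rep j))).subst τ) := by
        rw [← hcl, hrep, show Fm.imp (rep i) (rep j) = fm.imp (rep i) (rep j) from rfl, hh.imp,
          hrep, hrep]
      simpa [Fm.iff, Fm.subst] using this
    · have : S.der Γ ((Fm.iff (rep R.bot) Fm.bot).subst τ) := by
        rw [← hcl, hrep, show Fm.bot = fm.bot from rfl, hh.bot]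
      simpa [Fm.iff, Fm.subst] using this) h2
  apply hxy
  rw [← hrep x, ← hrep y, hcl]
  simpa [Fm.iff, Fm.subst] using h3

theorem LT_top (Γ : Set Fm) (τ : ℕ → Fm) {l : ℕ} {R : RA (Fin l)} {cl : Fm → Fin l}
    (hh : IsHom fm R cl)
    (hcl : ∀ φ ψ, cl φ = cl ψ ↔ S.der Γ ((Fm.iff φ ψ).subst τ)) (φ : Fm) :
    cl φ = R.top ↔ S.der Γ (φ.subst τ) := by
  rw [← hh.top, hcl, ← der_iff_top hS Γ (φ.subst τ)]
  rfl

/-- Theorems of `S` are valid in Lindenbaum algebras. -/
theorem LT_valid (Γ : Set Fm) (τ : ℕ → Fm) {l : ℕ} {R : RA (Fin l)} {cl : Fm → Fin l}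
    (hs : Function.Surjective cl) (hh : IsHom fm R cl)
    (hcl : ∀ φ ψ, cl φ = cl ψ ↔ S.der Γ ((Fm.iff φ ψ).subst τ)) (Δ : Finset Fm) (δ : Fm)
    (h : ∀ ρ : ℕ → Fm, (∀ C ∈ Δ, S.der Γ ((C.subst ρ).subst τ)) → S.der Γ ((δ.subst ρ).subst τ)) :
    R.Valid Δ δ := by
  choose rep hrep using hs
  have key : ∀ (w : ℕ → Fin l) (φ : Fm), R.eval w φ = cl (φ.subst (fun i => rep (w i))) := by
    intro w φ
    rw [← fm_eval, hh.eval]
    simp only [hrep]
  intro w hw
  rw [key, LT_top hS Γ τ hh hcl]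
  apply h
  intro C hC
  rw [← LT_top hS Γ τ hh hcl, ← key]
  exact hw C hC

end

section

variable {A : Type} [HeytingAlgebra A] {n : ℕ} (e : A ≃ Fin n)

theorem crit_of_hsc' [Finite A] (hS : (matrixSystem A).HereditarilyStructurallyComplete)
    (N₁ N₂ : ℕ) : Crit A N₁ N₂ := by
  intro m _ l _ B C hB hC ⟨g, gs, hg⟩
  exact sep_of_hsc' hS B C hB hC g gs hg

include e in
theorem hsc_of_crit' [Finite A] (hcrit : Crit A n (n ^ (n ^ n))) :
    (matrixSystem A).HereditarilyStructurallyComplete := by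
  classical
  let _ : Fintype A := Fintype.ofEquiv _ e.symm
  have hcard : Fintype.card A = n := by
    rw [Fintype.card_congr e, Fintype.card_fin]
  have hn : 0 < n := lt_of_le_of_lt (Nat.zero_le _) (e ⊥).2
  intro S hS Γ β hadm
  by_contra hno
  -- step 1
  obtain ⟨k1, hk1⟩ := exists_bound_finset Γ
  obtain ⟨k2, hk2⟩ := exists_bound β
  obtain ⟨k, hk, hkβ⟩ : ∃ k, (∀ φ ∈ Γ, φ.subst (trunc k) = φ) ∧ β.subst (trunc k) = β :=
    ⟨max k1 k2, hk1 _ (le_max_left _ _), hk2 _ (le_max_right _ _)⟩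
  -- step 2
  obtain ⟨l', R', cl', -, hs', hh', hcl'⟩ := LT_exists hS (↑Γ) (trunc k) k
    (fun j hj => by simp [trunc]; omega)
  have hsep' := LT_sep hS _ _ hs' hh' hcl'
  have htop' := LT_top hS _ _ hh' hcl'
  have hβ' : cl' β ≠ R'.top := by
    rw [Ne, htop', hkβ]; exact hno
  obtain ⟨h, hh, hne⟩ := hsep' _ _ hβ'
  rw [hh.top] at hne
  -- the algebra `B`
  have hcomp : IsHom fm (ofH A) (fun φ => h (cl' φ)) := hh.comp hh'
  obtain ⟨m, B, clB, hmle, hsB, hhB, hclB⟩ := quot_exists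
    (fun φ ψ => h (cl' φ) = h (cl' ψ))
    ⟨fun _ => rfl, fun h => h.symm, fun h h' => h.trans h'⟩
    (fun a a' b b' h1 h2 => by
      have e1 := hcomp.inf a b
      have e2 := hcomp.inf a' b'
      change h (cl' (fm.inf a b)) = h (cl' (fm.inf a' b'))
      rw [e1, e2, h1, h2])
    (fun a a' b b' h1 h2 => by
      have e1 := hcomp.sup a b
      have e2 := hcomp.sup a' b'
      change h (cl' (fm.sup a b)) = h (cl' (fm.sup a' b'))
      rw [e1, e2, h1, h2])
    (fun a a' b b' h1 h2 => by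
      have e1 := hcomp.imp a b
      have e2 := hcomp.imp a' b'
      change h (cl' (fm.imp a b)) = h (cl' (fm.imp a' b'))
      rw [e1, e2, h1, h2])
    (K := A) (fun φ => h (cl' φ)) (fun φ ψ h => h)
  rw [hcard] at hmle
  choose repB hrepB using hsB
  have hrB : ∀ φ, h (cl' (repB (clB φ))) = h (cl' φ) := fun φ =>
    (hclB _ _).1 (hrepB _)
  have hSepB : Sep B (ofH A) := by
    intro x y hxy
    refine ⟨fun b => h (cl' (repB b)), ⟨?_, ?_, ?_, ?_⟩, ?_⟩
    · intro a b
      have h1 : B.inf a b = clB (fm.inf (repB a) (repB b)) := by rw [hhB.inf, hrepB, hrepB]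
      rw [h1, hrB]
      exact hcomp.inf _ _
    · intro a b
      have h1 : B.sup a b = clB (fm.sup (repB a) (repB b)) := by rw [hhB.sup, hrepB, hrepB]
      rw [h1, hrB]
      exact hcomp.sup _ _
    · intro a b
      have h1 : B.imp a b = clB (fm.imp (repB a) (repB b)) := by rw [hhB.imp, hrepB, hrepB]
      rw [h1, hrB]
      exact hcomp.imp _ _
    · have h1 : B.bot = clB fm.bot := by rw [hhB.bot]
      rw [h1, hrB]
      exact hcomp.bot
    · intro h
      apply hxy
      rw [← hrepB x, ← hrepB y, hclB]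
      exact h
  have hgoodB : Good B := hSepB.good (good_ofH A)
  have keyB : ∀ (w : ℕ → Fin m) (φ : Fm), B.eval w φ = clB (φ.subst (fun i => repB (w i))) := by
    intro w φ
    rw [← fm_eval, hhB.eval]
    simp only [hrepB]
  -- the theorems of `S` are valid in `B`
  have hthm : ∀ θ : Fm, S.der ∅ θ → B.Valid ∅ θ := by
    intro θ hθ
    have h1 : R'.Valid ∅ θ := by
      refine LT_valid hS _ _ hs' hh' hcl' ∅ θ fun ρ _ => ?_
      have h1 := S.structural _ _ ρ hθ
      have h2 := S.structural _ _ (trunc k) h1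
      rw [Set.image_empty, Set.image_empty] at h2
      exact S.mono (Set.empty_subset _) h2
    intro w _
    rw [keyB, ← hhB.top, hclB]
    have h2 := h1 (fun i => cl' (repB (w i))) (by simp)
    have h3 : cl' (θ.subst (fun i => repB (w i))) = R'.eval (fun i => cl' (repB (w i))) θ := by
      rw [← fm_eval, hh'.eval]
    rw [h3, h2, hh'.top]
  -- step 6
  obtain ⟨l3, R3, cl3, hl3, hs3, hh3, hcl3⟩ := LT_exists hS ∅ (trunc m) m
    (fun j hj => by simp [trunc]; omega)
  have hsep3 := LT_sep hS _ _ hs3 hh3 hcl3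
  let vB : ℕ → Fin m := fun j => if h : j < m then ⟨j, h⟩ else B.bot
  have hvB : ∀ φ : Fm, B.eval vB (φ.subst (trunc m)) = B.eval vB φ := by
    intro φ
    rw [eval_subst]
    congr 1
    funext i
    simp only [trunc, vB]
    split_ifs with h
    · simp [RA.eval, h]
    · rfl
  have hcrit3 : Sep B R3 := by
    refine hcrit m hmle l3 ((hl3.trans (by rw [hcard])).trans
      (Nat.pow_le_pow_right hn (Nat.pow_le_pow_right hn hmle))) B R3 hSepB hsep3 ?_
    choose rep3 hrep3 using hs3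
    have hwd : ∀ φ, B.eval vB (rep3 (cl3 φ)) = B.eval vB φ := by
      intro φ
      have h1 : S.der ∅ ((Fm.iff (rep3 (cl3 φ)) φ).subst (trunc m)) := by
        rw [← hcl3, hrep3]
      have h2 := hthm _ h1 vB (by simp)
      rw [hvB, eval_iff] at h2
      exact hgoodB.eq _ _ h2
    have hhomv := isHom_eval B vB
    refine ⟨fun x => B.eval vB (rep3 x), fun j => ⟨cl3 (Fm.var j), ?_⟩, ⟨?_, ?_, ?_, ?_⟩⟩
    · simp only
      rw [hwd]
      simp [RA.eval, vB]
    · intro a b
      have h1 : R3.inf a b = cl3 (fm.inf (rep3 a) (rep3 b)) := by rw [hh3.inf, hrep3, hrep3]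
      rw [h1, hwd]
      exact hhomv.inf _ _
    · intro a b
      have h1 : R3.sup a b = cl3 (fm.sup (rep3 a) (rep3 b)) := by rw [hh3.sup, hrep3, hrep3]
      rw [h1, hwd]
      exact hhomv.sup _ _
    · intro a b
      have h1 : R3.imp a b = cl3 (fm.imp (rep3 a) (rep3 b)) := by rw [hh3.imp, hrep3, hrep3]
      rw [h1, hwd]
      exact hhomv.imp _ _
    · have h1 : R3.bot = cl3 fm.bot := by rw [hh3.bot]
      rw [h1, hwd]
      exact hhomv.bot
  -- step 7
  have hvalid3 : R3.Valid Γ β := by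
    refine LT_valid hS _ _ hs3 hh3 hcl3 Γ β fun ρ h => ?_
    rw [Fm.subst_subst]
    refine hadm _ fun C hC => ?_
    rw [← Fm.subst_subst]
    exact h C hC
  -- step 8
  have hvalidB : B.Valid Γ β := hcrit3.valid hvalid3
  -- step 9
  have key : ∀ φ : Fm, B.eval (fun i => clB (Fm.var i)) φ = clB φ := by
    intro φ
    have h1 := hhB.eval Fm.var φ
    rw [← h1, fm_eval, Fm.subst_var]
  have h9 := hvalidB (fun i => clB (Fm.var i)) (fun C hC => by
    rw [key, ← hhB.top, hclB]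
    have : cl' C = cl' fm.top := by
      rw [hh'.top, htop', hk C hC]
      exact S.ax _ _ (by exact_mod_cast hC)
    rw [this])
  rw [key, ← hhB.top, hclB, hh'.top, hh.top] at h9
  exact hne h9

include e in
theorem hsc_iff_crit' [Finite A] : (matrixSystem A).HereditarilyStructurallyComplete ↔
    Crit A n (n ^ (n ^ n)) :=
  ⟨fun h => crit_of_hsc' h _ _, fun h => hsc_of_crit' e h⟩

end

end Pool.Agent.TH751.QP
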