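import Pool.Agent.H877R3.HSC.Defs

/-!
# Quasivarieties of algebras in the signature of Heyting algebras, and the deductive system of a
finite Heyting algebra
-/

set_option autoImplicit false

namespace Pool.Agent.TH751.QP

open Pool.Agent.H877R3.HSC

/-- An algebra in the signature `(∧, ∨, →, 0, 1)`. -/
structure Alg where
  carrier : Type
  inf : carrier → carrier → carrier
  sup : carrier → carrier → carrier
  imp : carrier → carrier → carrier
  zero : carrier
  one : carrier

/-- A Heyting algebra as an algebra in the signature `(∧, ∨, →, 0, 1)`. -/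
def Alg.ofHeyting (A : Type) [HeytingAlgebra A] : Alg where
  carrier := A
  inf := fun a b => a ⊓ b
  sup := fun a b => a ⊔ b
  imp := fun a b => a ⇨ b
  zero := ⊥
  one := ⊤

/-- Terms in the signature `(∧, ∨, →, 0, 1)`. -/
inductive Trm : Type
  | var (i : ℕ) : Trm
  | zero : Trm
  | one : Trm
  | inf (s t : Trm) : Trm
  | sup (s t : Trm) : Trm
  | imp (s t : Trm) : Trm

/-- The value of a term. -/
def Trm.eval (X : Alg) (v : ℕ → X.carrier) : Trm → X.carrier
  | Trm.var i => v i
  | Trm.zero => X.zero
  | Trm.one => X.one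
  | Trm.inf s t => X.inf (s.eval X v) (t.eval X v)
  | Trm.sup s t => X.sup (s.eval X v) (t.eval X v)
  | Trm.imp s t => X.imp (s.eval X v) (t.eval X v)

/-- An identity. -/
structure Iden where
  lhs : Trm
  rhs : Trm

/-- The identity is satisfied in the algebra `X` under the assignment `v`. -/
def Iden.Sat (e : Iden) (X : Alg) (v : ℕ → X.carrier) : Prop := e.lhs.eval X v = e.rhs.eval X v

/-- A quasi-identity: a finite conjunction of identities implies an identity. -/
structure QIden where
  prems : List Iden
  concl : Iden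

/-- The quasi-identity is valid in the algebra `X`. -/
def QIden.Valid (q : QIden) (X : Alg) : Prop :=
  ∀ v : ℕ → X.carrier, (∀ e ∈ q.prems, e.Sat X v) → q.concl.Sat X v

/-- A variety: the class of all algebras which satisfy some set of identities. -/
def IsVariety (V : Set Alg) : Prop :=
  ∃ E : Set Iden, ∀ X, X ∈ V ↔ ∀ e ∈ E, ∀ v : ℕ → X.carrier, e.Sat X v

/-- A quasivariety: the class of all algebras in which some set of quasi-identities is valid. -/
def IsQuasivariety (K : Set Alg) : Prop :=
  ∃ Q : Set QIden, ∀ X, X ∈ K ↔ ∀ q ∈ Q, q.Valid X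

/-- `Q(A)`, the quasivariety generated by the algebra `A`: the class of all algebras in which
every quasi-identity valid in `A` is valid. -/
def QVar (A : Alg) : Set Alg := {X | ∀ q : QIden, q.Valid A → q.Valid X}

/-- The quasivariety `K` is primitive: every subquasivariety `K'` of `K` is a relative variety of
`K`, i.e. `K' = K ∩ V` for some variety `V`. -/
def Primitive (K : Set Alg) : Prop :=
  ∀ K' : Set Alg, IsQuasivariety K' → K' ⊆ K → ∃ V : Set Alg, IsVariety V ∧ K' = K ∩ V

/-- Formulas are evaluated continuously in a finite Heyting algebra. -/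
theorem continuous_eval {A : Type} [HeytingAlgebra A] [TopologicalSpace A] [DiscreteTopology A]
    (φ : Fm) : Continuous (fun v : ℕ → A => φ.eval v) := by
  induction φ with
  | var i => exact continuous_apply i
  | bot => exact continuous_const
  | and a b iha ihb =>
    exact (continuous_of_discreteTopology (f := fun p : A × A => p.1 ⊓ p.2)).comp (iha.prodMk ihb)
  | or a b iha ihb =>
    exact (continuous_of_discreteTopology (f := fun p : A × A => p.1 ⊔ p.2)).comp (iha.prodMk ihb)
  | imp a b iha ihb =>
    exact (continuous_of_discreteTopology (f := fun p : A × A => p.1 ⇨ p.2)).comp (iha.prodMk ihb)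

theorem matrix_finitary {A : Type} [HeytingAlgebra A] [Finite A] (Γ : Set Fm) (β : Fm)
    (h : ∀ v : ℕ → A, (∀ C ∈ Γ, C.eval v = ⊤) → β.eval v = ⊤) :
    ∃ Δ : Set Fm, Δ ⊆ Γ ∧ Δ.Finite ∧
      ∀ v : ℕ → A, (∀ C ∈ Δ, C.eval v = ⊤) → β.eval v = ⊤ := by
  classical
  let _ : TopologicalSpace A := ⊥
  have _ : DiscreteTopology A := ⟨rfl⟩
  have _ : CompactSpace A := Finite.compactSpace
  let T : Γ → Set (ℕ → A) := fun C => {v | C.1.eval v = ⊤}
  let S : Set (ℕ → A) := {v | ¬ β.eval v = ⊤}
  have hT : ∀ C, IsClosed (T C) := fun C =>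
    (isClosed_discrete ({⊤} : Set A)).preimage (continuous_eval C.1)
  have hS : IsCompact S := by
    have : IsClosed S := (isClosed_discrete ({⊤}ᶜ : Set A)).preimage (continuous_eval β)
    exact this.isCompact
  have hemp : S ∩ ⋂ C, T C = ∅ := by
    rw [Set.eq_empty_iff_forall_notMem]
    rintro v ⟨h1, h2⟩
    apply h1
    apply h
    intro C hC
    exact Set.mem_iInter.1 h2 ⟨C, hC⟩
  obtain ⟨u, hu⟩ := hS.elim_finite_subfamily_closed T hT hemp
  refine ⟨(fun C : Γ => C.1) '' (↑u : Set Γ), ?_, u.finite_toSet.image _, ?_⟩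
  · rintro _ ⟨C, _, rfl⟩
    exact C.2
  · intro v hv
    by_contra hne
    have : v ∈ S ∩ ⋂ C ∈ u, T C := by
      refine ⟨hne, ?_⟩
      simp only [Set.mem_iInter]
      intro C hC
      exact hv C.1 ⟨C, hC, rfl⟩
    rw [hu] at this
    exact this

/-- The deductive system `⊢_A` of a finite Heyting algebra `A`: `Γ ⊢_A β` iff every valuation into
`A` which sends all members of `Γ` to the top element sends `β` to the top element. -/
def matrixSystem (A : Type) [HeytingAlgebra A] [Finite A] : DedSys where
  der := fun Γ β => ∀ v : ℕ → A, (∀ C ∈ Γ, C.eval v = ⊤) → β.eval v = ⊤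
  ax := fun _ β h _ hv => hv β h
  cut := fun _ _ _ h hA v hv => hA v fun B hB => h B hB v hv
  finitary := fun Γ β h => matrix_finitary Γ β h
  structural := fun Γ β σ h v hv => by
    rw [Fm.eval_subst]
    refine h _ fun C hC => ?_
    rw [← Fm.eval_subst]
    exact hv _ ⟨C, hC, rfl⟩

end Pool.Agent.TH751.QP
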