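import Pool.Agent.H877R3.HSC.Core3
import Pool.Agent.TH751.QP.Defs

/-!
# Primitivity of `Q(A)` and the finite criterion
-/

set_option autoImplicit false

namespace Pool.Agent.TH751.QP

open Pool.Agent.H877R3.HSC Pool.Agent.H877R3.HSC.RA

/-- The finite criterion: algebras of size at most `N₁` in `Q(A)` which are homomorphic images of
algebras of size at most `N₂` in `Q(A)` are separated by the latter. -/
def Crit (A : Type) [HeytingAlgebra A] (N₁ N₂ : ℕ) : Prop :=
  ∀ m ≤ N₁, ∀ l ≤ N₂, ∀ (B : RA (Fin m)) (C : RA (Fin l)), Sep B (ofH A) → Sep C (ofH A) →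
    (∃ g : Fin l → Fin m, Function.Surjective g ∧ IsHom C B g) → Sep B C

/-! ### Translation between terms and formulas -/

/-- terms to formulas -/
def tr : Trm → Fm
  | Trm.var i => Fm.var i
  | Trm.zero => Fm.bot
  | Trm.one => Fm.imp Fm.bot Fm.bot
  | Trm.inf s t => Fm.and (tr s) (tr t)
  | Trm.sup s t => Fm.or (tr s) (tr t)
  | Trm.imp s t => Fm.imp (tr s) (tr t)

/-- formulas to terms -/
def bk : Fm → Trm
  | Fm.var i => Trm.var i
  | Fm.bot => Trm.zero
  | Fm.and a b => Trm.inf (bk a) (bk b)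
  | Fm.or a b => Trm.sup (bk a) (bk b)
  | Fm.imp a b => Trm.imp (bk a) (bk b)

/-- the reduct -/
def red (X : Alg) : RA X.carrier := ⟨X.inf, X.sup, X.imp, X.zero⟩

/-- the expansion -/
def expand {m : ℕ} (R : RA (Fin m)) : Alg := ⟨Fin m, R.inf, R.sup, R.imp, R.bot, R.top⟩

/-- the constant `1` is `0 → 0` -/
def Normal (X : Alg) : Prop := X.one = X.imp X.zero X.zero

theorem red_eval_tr {X : Alg} (hX : Normal X) (v : ℕ → X.carrier) (t : Trm) :
    (red X).eval v (tr t) = t.eval X v := by
  induction t with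
  | var i => rfl
  | zero => rfl
  | one => exact hX.symm
  | inf s t hs ht => simp only [tr, RA.eval, Trm.eval, hs, ht]; rfl
  | sup s t hs ht => simp only [tr, RA.eval, Trm.eval, hs, ht]; rfl
  | imp s t hs ht => simp only [tr, RA.eval, Trm.eval, hs, ht]; rfl

theorem bk_eval (X : Alg) (v : ℕ → X.carrier) (φ : Fm) :
    (bk φ).eval X v = (red X).eval v φ := by
  induction φ with
  | var i => rfl
  | bot => rfl
  | and s t hs ht => simp only [bk, RA.eval, Trm.eval, hs, ht]; rfl
  | or s t hs ht => simp only [bk, RA.eval, Trm.eval, hs, ht]; rfl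
  | imp s t hs ht => simp only [bk, RA.eval, Trm.eval, hs, ht]; rfl

theorem red_expand {m : ℕ} (R : RA (Fin m)) : red (expand R) = R := rfl

theorem red_ofHeyting (A : Type) [HeytingAlgebra A] : red (Alg.ofHeyting A) = ofH A := rfl

theorem normal_expand {m : ℕ} (R : RA (Fin m)) : Normal (expand R) := rfl

theorem normal_ofHeyting (A : Type) [HeytingAlgebra A] : Normal (Alg.ofHeyting A) := by
  change (⊤ : A) = ⊥ ⇨ ⊥
  simp

/-- Validity of quasi-identities between formulas. -/
def QVal {X : Type} (R : RA X) (P : List (Fm × Fm)) (c : Fm × Fm) : Prop :=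
  ∀ v : ℕ → X, (∀ p ∈ P, R.eval v p.1 = R.eval v p.2) → R.eval v c.1 = R.eval v c.2

/-- quasi-identity of formulas as a quasi-identity of terms -/
def mkQ (P : List (Fm × Fm)) (c : Fm × Fm) : QIden :=
  ⟨P.map fun p => ⟨bk p.1, bk p.2⟩, ⟨bk c.1, bk c.2⟩⟩

theorem mkQ_valid (X : Alg) (P : List (Fm × Fm)) (c : Fm × Fm) :
    (mkQ P c).Valid X ↔ QVal (red X) P c := by
  unfold QIden.Valid QVal mkQ Iden.Sat
  simp only [List.mem_map, forall_exists_index, and_imp, forall_apply_eq_imp_iff₂, bk_eval]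

theorem valid_iff {X : Alg} (hX : Normal X) (q : QIden) :
    q.Valid X ↔ QVal (red X) (q.prems.map fun e => (tr e.lhs, tr e.rhs))
      (tr q.concl.lhs, tr q.concl.rhs) := by
  unfold QIden.Valid QVal Iden.Sat
  simp only [List.mem_map, forall_exists_index, and_imp, forall_apply_eq_imp_iff₂, red_eval_tr hX]

theorem normal_of_mem {A : Type} [HeytingAlgebra A] {X : Alg}
    (hX : X ∈ QVar (Alg.ofHeyting A)) : Normal X := by
  have h := hX ⟨[], ⟨Trm.one, Trm.imp Trm.zero Trm.zero⟩⟩ (fun v _ => by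
    simp only [Iden.Sat, Trm.eval]
    exact normal_ofHeyting A)
  exact h (fun _ => X.zero) (by simp)

/-- The diagram of a finite algebra as a list of equations between formulas. -/
def dgl {m : ℕ} (R : RA (Fin m)) : List (Fm × Fm) :=
  ((List.finRange m).flatMap fun i => (List.finRange m).flatMap fun j =>
    [(Fm.var (R.inf i j), Fm.and (Fm.var i) (Fm.var j)),
     (Fm.var (R.sup i j), Fm.or (Fm.var i) (Fm.var j)),
     (Fm.var (R.imp i j), Fm.imp (Fm.var i) (Fm.var j))]) ++ [(Fm.var R.bot, Fm.bot)]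

theorem dgl_iff {m : ℕ} (R : RA (Fin m)) {Y : Type} (R' : RA Y) (w : ℕ → Y) :
    (∀ p ∈ dgl R, R'.eval w p.1 = R'.eval w p.2) ↔ IsHom R R' (fun i => w i) := by
  constructor
  · intro h
    refine ⟨fun a b => ?_, fun a b => ?_, fun a b => ?_, ?_⟩
    · exact h (Fm.var (R.inf a b), Fm.and (Fm.var a) (Fm.var b)) (by
        simp only [dgl, List.mem_append, List.mem_flatMap, List.mem_finRange, true_and]
        exact Or.inl ⟨a, b, by simp⟩)
    · exact h (Fm.var (R.sup a b), Fm.or (Fm.var a) (Fm.var b)) (by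
        simp only [dgl, List.mem_append, List.mem_flatMap, List.mem_finRange, true_and]
        exact Or.inl ⟨a, b, by simp⟩)
    · exact h (Fm.var (R.imp a b), Fm.imp (Fm.var a) (Fm.var b)) (by
        simp only [dgl, List.mem_append, List.mem_flatMap, List.mem_finRange, true_and]
        exact Or.inl ⟨a, b, by simp⟩)
    · exact h (Fm.var R.bot, Fm.bot) (by simp [dgl])
  · intro h p hp
    simp only [dgl, List.mem_append, List.mem_flatMap, List.mem_finRange, true_and,
      List.mem_cons, List.not_mem_nil, or_false] at hp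
    rcases hp with ⟨a, b, rfl | rfl | rfl⟩ | rfl
    · exact h.inf a b
    · exact h.sup a b
    · exact h.imp a b
    · exact h.bot

/-- If the quasi-identities valid in `R'` are valid in the finite algebra `R`, then `R` is
separated by `R'`. -/
theorem sep_of_qval {m : ℕ} (R : RA (Fin m)) {Y : Type} (R' : RA Y)
    (h : ∀ P c, QVal R' P c → QVal R P c) : Sep R R' := by
  intro x y hxy
  by_contra hno
  push Not at hno
  have h1 : QVal R' (dgl R) (Fm.var x, Fm.var y) := by
    intro w hw
    exact hno _ ((dgl_iff R R' w).1 hw)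
  have hm : 0 < m := lt_of_le_of_lt (Nat.zero_le _) x.2
  have h2 := h _ _ h1 (fun i => if h : i < m then ⟨i, h⟩ else ⟨0, hm⟩) (by
    rw [dgl_iff]
    have : (fun i : Fin m => (if h : (i : ℕ) < m then (⟨i, h⟩ : Fin m) else ⟨0, hm⟩)) =
        fun i => i := by
      funext i; simp
    rw [this]
    exact ⟨fun _ _ => rfl, fun _ _ => rfl, fun _ _ => rfl, rfl⟩)
  apply hxy
  simpa [RA.eval] using h2

theorem Sep.qval {X Y : Type} {R : RA X} {R' : RA Y} (hs : Sep R R') {P : List (Fm × Fm)}
    {c : Fm × Fm} (h : QVal R' P c) : QVal R P c := by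
  intro v hv
  by_contra hne
  obtain ⟨f, hf, hne⟩ := hs _ _ hne
  apply hne
  rw [hf.eval, hf.eval]
  apply h
  intro p hp
  rw [← hf.eval, ← hf.eval, hv p hp]

theorem mem_QVar_iff {A : Type} [HeytingAlgebra A] {m : ℕ} (R : RA (Fin m)) :
    expand R ∈ QVar (Alg.ofHeyting A) ↔ Sep R (ofH A) := by
  constructor
  · intro h
    refine sep_of_qval R _ fun P c hPc => ?_
    have h1 := h (mkQ P c) ((mkQ_valid _ _ _).2 hPc)
    exact (mkQ_valid _ _ _).1 h1
  · intro h q hq
    rw [valid_iff (normal_expand R)]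
    exact Sep.qval h ((valid_iff (normal_ofHeyting A) q).1 hq)

section

variable {A : Type} [HeytingAlgebra A]

/-- Primitivity implies the finite criterion. -/
theorem crit_of_primitive (hP : Primitive (QVar (Alg.ofHeyting A))) (N₁ N₂ : ℕ) :
    Crit A N₁ N₂ := by
  intro m _ l _ B C hB hC ⟨g, gs, hg⟩
  obtain ⟨V, ⟨E, hE⟩, hV⟩ := hP (QVar (expand C)) ⟨{q | q.Valid (expand C)}, fun X => Iff.rfl⟩ (by
    intro X hX q hq
    exact hX q ((mem_QVar_iff C).2 hC q hq))
  have hCV : expand C ∈ V := by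
    have : expand C ∈ QVar (expand C) := fun q hq => hq
    rw [hV] at this
    exact this.2
  have hBV : expand B ∈ V := by
    rw [hE] at hCV ⊢
    intro e he v
    choose w hw using gs
    have h1 := hCV e he (fun i => w (v i))
    unfold Iden.Sat at h1 ⊢
    have e1 := red_eval_tr (X := expand C) (normal_expand C) (fun i => w (v i)) e.lhs
    have e2 := red_eval_tr (X := expand C) (normal_expand C) (fun i => w (v i)) e.rhs
    have e3 := red_eval_tr (X := expand B) (normal_expand B) v e.lhs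
    have e4 := red_eval_tr (X := expand B) (normal_expand B) v e.rhs
    have h2 : ∀ (v' : ℕ → Fin m) (φ : Fm), B.eval v' φ = g (C.eval (fun i => w (v' i)) φ) := by
      intro v' φ
      rw [hg.eval]; simp only [hw]
    have h3 := h2 v (tr e.lhs)
    have h4 := h2 v (tr e.rhs)
    refine e3.symm.trans (Eq.trans ?_ e4)
    refine h3.trans (Eq.trans ?_ h4.symm)
    exact congrArg g (e1.trans (h1.trans e2.symm))
  have hBQ : expand B ∈ QVar (expand C) := by
    rw [hV]
    exact ⟨(mem_QVar_iff B).2 hB, hBV⟩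
  refine sep_of_qval B C fun P c hPc => ?_
  exact (mkQ_valid _ _ _).1 (hBQ (mkQ P c) ((mkQ_valid _ _ _).2 hPc))

theorem eval_congr_lt {X : Type} (R : RA X) {k : ℕ} (φ : Fm) (hφ : φ.subst (trunc k) = φ)
    (v w : ℕ → X) (h : ∀ i < k, v i = w i) : R.eval v φ = R.eval w φ := by
  rw [← hφ, eval_subst, eval_subst]
  congr 1
  funext i
  unfold trunc
  split_ifs with hi
  · exact h i hi
  · rfl

/-- extension by bottom -/
def ext0 {X : Type} (b : X) {k : ℕ} (u : Fin k → X) : ℕ → X :=
  fun i => if h : i < k then u ⟨i, h⟩ else b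

theorem eval_trunc {X : Type} (R : RA X) (k : ℕ) (v : ℕ → X) (φ : Fm) :
    R.eval v (φ.subst (trunc k)) = R.eval (ext0 R.bot (fun i : Fin k => v i)) φ := by
  rw [eval_subst]
  congr 1
  funext i
  unfold trunc ext0
  split_ifs with h
  · rfl
  · rfl

/-- The finite criterion implies primitivity. -/
theorem primitive_of_crit {n : ℕ} (e : A ≃ Fin n) (hcrit : Crit A n (n ^ (n ^ n))) :
    Primitive (QVar (Alg.ofHeyting A)) := by
  classical
  let _ : Fintype A := Fintype.ofEquiv _ e.symm
  have hcard : Fintype.card A = n := by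
    rw [Fintype.card_congr e, Fintype.card_fin]
  have hn : 0 < n := lt_of_le_of_lt (Nat.zero_le _) (e ⊥).2
  rintro K' ⟨Q, hQ⟩ hK'
  refine ⟨{X | ∀ i : Iden, (∀ Y ∈ K', ∀ v : ℕ → Y.carrier, i.Sat Y v) →
    ∀ v : ℕ → X.carrier, i.Sat X v}, ⟨{i | ∀ Y ∈ K', ∀ v : ℕ → Y.carrier, i.Sat Y v},
    fun X => Iff.rfl⟩, ?_⟩
  apply Set.Subset.antisymm
  · intro X hX
    exact ⟨hK' hX, fun i hi => hi X hX⟩
  rintro X ⟨hXQ, hXV⟩
  rw [hQ]
  intro q hq
  by_contra hno
  have hXn : Normal X := normal_of_mem hXQ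
  rw [valid_iff hXn] at hno
  unfold QVal at hno
  push Not at hno
  obtain ⟨v0, hv0, hne0⟩ := hno
  set P : List (Fm × Fm) := q.prems.map fun e => (tr e.lhs, tr e.rhs) with hPdef
  set c : Fm × Fm := (tr q.concl.lhs, tr q.concl.rhs) with hcdef
  -- a bound for the variables
  obtain ⟨k, hk1, hk2, hk3⟩ : ∃ k, (∀ p ∈ P, p.1.subst (trunc k) = p.1 ∧
      p.2.subst (trunc k) = p.2) ∧ c.1.subst (trunc k) = c.1 ∧ c.2.subst (trunc k) = c.2 := by
    obtain ⟨k1, h1⟩ := exists_bound_finset
      ((P.map Prod.fst).toFinset ∪ (P.map Prod.snd).toFinset ∪ {c.1, c.2})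
    refine ⟨k1, fun p hp => ⟨h1 k1 le_rfl _ ?_, h1 k1 le_rfl _ ?_⟩, h1 k1 le_rfl _ ?_,
      h1 k1 le_rfl _ ?_⟩
    · simp only [Finset.mem_union, List.mem_toFinset, List.mem_map]
      exact Or.inl (Or.inl ⟨p, hp, rfl⟩)
    · simp only [Finset.mem_union, List.mem_toFinset, List.mem_map]
      exact Or.inl (Or.inr ⟨p, hp, rfl⟩)
    · simp
    · simp
  set R := red X with hR
  -- the assignment, extended by zero
  let v : ℕ → X.carrier := ext0 R.bot (fun i : Fin k => v0 i)
  have hvv : ∀ φ : Fm, R.eval v φ = R.eval v0 (φ.subst (trunc k)) := fun φ =>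
    (eval_trunc R k v0 φ).symm
  have hvP : ∀ p ∈ P, R.eval v p.1 = R.eval v p.2 := by
    intro p hp
    rw [hvv, hvv, (hk1 p hp).1, (hk1 p hp).2]
    exact hv0 p hp
  have hvc : R.eval v c.1 ≠ R.eval v c.2 := by
    rw [hvv, hvv, hk2, hk3]
    exact hne0
  -- a homomorphism of the subalgebra generated to `A`
  obtain ⟨u, hu, huc⟩ : ∃ u : Fin k → A,
      (∀ φ ψ : Fm, R.eval v φ = R.eval v ψ → (ofH A).eval (ext0 ⊥ u) φ =
        (ofH A).eval (ext0 ⊥ u) ψ) ∧
      (ofH A).eval (ext0 ⊥ u) c.1 ≠ (ofH A).eval (ext0 ⊥ u) c.2 := by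
    by_contra hcon
    push Not at hcon
    have hbad : ∀ u : Fin k → A, (ofH A).eval (ext0 ⊥ u) c.1 ≠ (ofH A).eval (ext0 ⊥ u) c.2 →
        ∃ p : Fm × Fm, R.eval v p.1 = R.eval v p.2 ∧ (ofH A).eval (ext0 ⊥ u) p.1 ≠
          (ofH A).eval (ext0 ⊥ u) p.2 := by
      intro u hu
      by_contra h
      push Not at h
      exact hu (hcon u (fun φ ψ hφ => h (φ, ψ) hφ))
    have _ : Nonempty (Fm × Fm) := ⟨(Fm.bot, Fm.bot)⟩
    choose! f hf using hbad
    let L : List (Fm × Fm) := ((Finset.univ.filter fun u : Fin k → A =>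
      (ofH A).eval (ext0 ⊥ u) c.1 ≠ (ofH A).eval (ext0 ⊥ u) c.2).toList.map fun u =>
        ((f u).1.subst (trunc k), (f u).2.subst (trunc k)))
    have hqA : QVal (ofH A) L c := by
      intro w hw
      by_contra hne
      have hw1 : (ofH A).eval (ext0 ⊥ (fun i : Fin k => w i)) c.1 ≠
          (ofH A).eval (ext0 ⊥ (fun i : Fin k => w i)) c.2 := by
        have e1 := eval_trunc (ofH A) k w c.1
        have e2 := eval_trunc (ofH A) k w c.2
        rw [hk2] at e1
        rw [hk3] at e2
        change (ofH A).eval (ext0 (ofH A).bot (fun i : Fin k => w i)) c.1 ≠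
          (ofH A).eval (ext0 (ofH A).bot (fun i : Fin k => w i)) c.2
        rw [← e1, ← e2]
        exact hne
      have h2 := (hf _ hw1).2
      apply h2
      have h3 := hw ((f (fun i : Fin k => w i)).1.subst (trunc k),
        (f (fun i : Fin k => w i)).2.subst (trunc k)) (by
          simp only [L, List.mem_map, Finset.mem_toList, Finset.mem_filter, Finset.mem_univ,
            true_and]
          exact ⟨_, hw1, rfl⟩)
      simp only [eval_trunc] at h3
      exact h3
    have hqX : QVal R L c := (mkQ_valid X L c).1 (hXQ _ ((mkQ_valid _ L c).2 hqA))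
    apply hvc
    apply hqX
    intro p hp
    simp only [L, List.mem_map, Finset.mem_toList, Finset.mem_filter, Finset.mem_univ,
      true_and] at hp
    obtain ⟨u, hu, rfl⟩ := hp
    have h4 := (hf u hu).1
    simp only [eval_trunc]
    have h5 : ext0 R.bot (fun i : Fin k => v i) = v := by
      funext i
      simp only [ext0, v]
      split_ifs <;> rfl
    rw [h5]
    exact h4
  set u' : ℕ → A := ext0 ⊥ u with hu'
  -- the algebra `B`
  obtain ⟨m, B, clB, hmle, hsB, hhB, hclB⟩ := quot_exists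
    (fun φ ψ => (ofH A).eval u' φ = (ofH A).eval u' ψ)
    ⟨fun _ => rfl, fun h => h.symm, fun h h' => h.trans h'⟩
    (fun a a' b b' h h' => by simp only [RA.eval, h, h'])
    (fun a a' b b' h h' => by simp only [RA.eval, h, h'])
    (fun a a' b b' h h' => by simp only [RA.eval, h, h'])
    (K := A) (fun φ => (ofH A).eval u' φ) (fun φ ψ h => h)
  rw [hcard] at hmle
  choose repB hrepB using hsB
  have hrB : ∀ φ, (ofH A).eval u' (repB (clB φ)) = (ofH A).eval u' φ := fun φ =>
    (hclB _ _).1 (hrepB _)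
  have hSepB : Sep B (ofH A) := by
    intro x y hxy
    refine ⟨fun b => (ofH A).eval u' (repB b), ⟨?_, ?_, ?_, ?_⟩, ?_⟩
    · intro a b
      have h1 : B.inf a b = clB (fm.inf (repB a) (repB b)) := by rw [hhB.inf, hrepB, hrepB]
      rw [h1, hrB]
      rfl
    · intro a b
      have h1 : B.sup a b = clB (fm.sup (repB a) (repB b)) := by rw [hhB.sup, hrepB, hrepB]
      rw [h1, hrB]
      rfl
    · intro a b
      have h1 : B.imp a b = clB (fm.imp (repB a) (repB b)) := by rw [hhB.imp, hrepB, hrepB]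
      rw [h1, hrB]
      rfl
    · have h1 : B.bot = clB fm.bot := by rw [hhB.bot]
      rw [h1, hrB]
      rfl
    · intro h
      apply hxy
      rw [← hrepB x, ← hrepB y, hclB]
      exact h
  have keyB : ∀ (w : ℕ → Fin m) (φ : Fm), B.eval w φ = clB (φ.subst (fun i => repB (w i))) := by
    intro w φ
    rw [← fm_eval, hhB.eval]
    simp only [hrepB]
  -- identities of `K'` hold in `B`
  have hidB : ∀ a b : Fm, (∀ Y ∈ K', ∀ w : ℕ → Y.carrier, (red Y).eval w a = (red Y).eval w b) →
      ∀ w : ℕ → Fin m, B.eval w a = B.eval w b := by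
    intro a b hab w
    rw [keyB, keyB, hclB]
    apply hu
    rw [eval_subst, eval_subst]
    have := hXV ⟨bk a, bk b⟩ (fun Y hY w => by
      simp only [Iden.Sat, bk_eval]
      exact hab Y hY w) (fun i => R.eval v (repB (w i)))
    simp only [Iden.Sat, bk_eval] at this
    exact this
  -- the free algebra of `K'`
  have hKA : ∀ Y ∈ K', ∀ a b : Fm, (∀ w : ℕ → A, (ofH A).eval w a = (ofH A).eval w b) →
      ∀ w : ℕ → Y.carrier, (red Y).eval w a = (red Y).eval w b := by
    intro Y hY a b hab w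
    have h1 : (mkQ [] (a, b)).Valid Y := hK' hY _ ((mkQ_valid _ _ _).2 fun w _ => hab w)
    exact (mkQ_valid _ _ _).1 h1 w (by simp)
  obtain ⟨l, F, clF, hlle, hsF, hhF, hclF⟩ := quot_exists
    (fun φ ψ => ∀ Y ∈ K', ∀ w : ℕ → Y.carrier, (red Y).eval w (φ.subst (trunc m)) =
      (red Y).eval w (ψ.subst (trunc m)))
    ⟨fun _ _ _ _ => rfl, fun h Y hY w => (h Y hY w).symm,
      fun h h' Y hY w => (h Y hY w).trans (h' Y hY w)⟩
    (fun a a' b b' h h' Y hY w => by simp only [Fm.subst, RA.eval, h Y hY w, h' Y hY w])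
    (fun a a' b b' h h' Y hY w => by simp only [Fm.subst, RA.eval, h Y hY w, h' Y hY w])
    (fun a a' b b' h h' Y hY w => by simp only [Fm.subst, RA.eval, h Y hY w, h' Y hY w])
    (K := (Fin m → A) → A) (fun φ w => (ofH A).eval (ext0 ⊥ w) φ) (fun φ ψ h Y hY => by
      refine hKA Y hY _ _ fun w => ?_
      rw [eval_trunc, eval_trunc]
      exact congrFun h (fun i => w i))
  have hlle' : l ≤ n ^ (n ^ n) := by
    have h1 : Fintype.card ((Fin m → A) → A) = n ^ (n ^ m) := by
      simp [Fintype.card_pi, hcard]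
    rw [h1] at hlle
    exact hlle.trans (Nat.pow_le_pow_right hn (Nat.pow_le_pow_right hn hmle))
  choose repF hrepF using hsF
  have keyF : ∀ (w : ℕ → Fin l) (φ : Fm), F.eval w φ = clF (φ.subst (fun i => repF (w i))) := by
    intro w φ
    rw [← fm_eval, hhF.eval]
    simp only [hrepF]
  -- quasi-identities of `K'` are valid in `F`
  have hFQ : ∀ P c, (∀ Y ∈ K', QVal (red Y) P c) → QVal F P c := by
    intro P c hPc w hw
    rw [keyF, keyF, hclF]
    intro Y hY z
    rw [Fm.subst_subst, Fm.subst_subst, eval_subst, eval_subst]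
    apply hPc Y hY
    intro p hp
    have h1 := hw p hp
    rw [keyF, keyF, hclF] at h1
    have h2 := h1 Y hY z
    rw [Fm.subst_subst, Fm.subst_subst, eval_subst, eval_subst] at h2
    exact h2
  have hSepF : Sep F (ofH A) := by
    refine sep_of_qval F _ fun P c hPc => hFQ P c fun Y hY => ?_
    exact (mkQ_valid _ _ _).1 (hK' hY _ ((mkQ_valid _ _ _).2 hPc))
  -- the homomorphism
  let vB : ℕ → Fin m := fun j => if h : j < m then ⟨j, h⟩ else B.bot
  have hvB : ∀ φ : Fm, B.eval vB (φ.subst (trunc m)) = B.eval vB φ := by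
    intro φ
    rw [eval_subst]
    congr 1
    funext i
    simp only [trunc, vB]
    split_ifs with h
    · simp [RA.eval, h]
    · rfl
  have hSepBF : Sep B F := by
    refine hcrit m hmle l hlle' B F hSepB hSepF ?_
    have hwd : ∀ φ, B.eval vB (repF (clF φ)) = B.eval vB φ := by
      intro φ
      have h1 := (hclF _ _).1 (hrepF (clF φ))
      have h2 := hidB _ _ h1 vB
      rw [hvB, hvB] at h2
      exact h2
    have hhomv := isHom_eval B vB
    refine ⟨fun x => B.eval vB (repF x), fun j => ⟨clF (Fm.var j), ?_⟩, ⟨?_, ?_, ?_, ?_⟩⟩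
    · simp only
      rw [hwd]
      simp [RA.eval, vB]
    · intro a b
      have h1 : F.inf a b = clF (fm.inf (repF a) (repF b)) := by rw [hhF.inf, hrepF, hrepF]
      rw [h1, hwd]
      exact hhomv.inf _ _
    · intro a b
      have h1 : F.sup a b = clF (fm.sup (repF a) (repF b)) := by rw [hhF.sup, hrepF, hrepF]
      rw [h1, hwd]
      exact hhomv.sup _ _
    · intro a b
      have h1 : F.imp a b = clF (fm.imp (repF a) (repF b)) := by rw [hhF.imp, hrepF, hrepF]
      rw [h1, hwd]
      exact hhomv.imp _ _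
    · have h1 : F.bot = clF fm.bot := by rw [hhF.bot]
      rw [h1, hwd]
      exact hhomv.bot
  -- conclusion
  have hqF : QVal F P c := by
    refine hFQ P c fun Y hY => ?_
    have h1 : q.Valid Y := (hQ Y).1 hY q hq
    exact (valid_iff (normal_of_mem (hK' hY)) q).1 h1
  have hqB : QVal B P c := Sep.qval hSepBF hqF
  have key : ∀ φ : Fm, B.eval (fun i => clB (Fm.var i)) φ = clB φ := by
    intro φ
    have h1 := hhB.eval Fm.var φ
    rw [← h1, fm_eval, Fm.subst_var]
  have h9 := hqB (fun i => clB (Fm.var i)) (fun p hp => by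
    rw [key, key, hclB]
    exact hu _ _ (hvP p hp))
  rw [key, key, hclB] at h9
  exact huc h9

theorem primitive_iff_crit {n : ℕ} (e : A ≃ Fin n) :
    Primitive (QVar (Alg.ofHeyting A)) ↔ Crit A n (n ^ (n ^ n)) :=
  ⟨fun h => crit_of_primitive h _ _, fun h => primitive_of_crit e h⟩

end

end Pool.Agent.TH751.QP
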